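import Mathlib

/-!
# Project CL (MP_6f990d_gt): common definitions

* calculus in the complex plane: `dx, dy, lap, dz, dzb, gr`;
* the potential `Wt v = 1 + cos v` on `[-π, π]`, `(|v| - π)^2 / 2` outside (class `C^2`, `|Wt''| ≤ 1`);
* pairs (function, gradient) `JetSp A`, energy, energy spaces, weak solutions, genus, widths;
* conformal surfaces `CSurf S`, their Sobolev space `C.HS`, smooth solutions, closed geodesics;
* the Sobolev space `HQ` of the unit square;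
* local sequences of solutions in a disc.

Blocks B, C use `v = u - π`; blocks D, E, F use `u`, `0 ≤ u ≤ 2π`, `ε^2 Δu = a sin u`.
-/

namespace Pool.Agent.Helper53.CL

open MeasureTheory Filter Topology
open scoped ContDiff Real

section Calculus

variable {F : Type*} [NormedAddCommGroup F] [NormedSpace ℝ F]

/-- The derivative in the direction `1`. -/
noncomputable def dx (f : ℂ → F) (z : ℂ) : F := fderiv ℝ f z 1

/-- The derivative in the direction `I`. -/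
noncomputable def dy (f : ℂ → F) (z : ℂ) : F := fderiv ℝ f z Complex.I

/-- The Laplacian. -/
noncomputable def lap (f : ℂ → F) (z : ℂ) : F := dx (dx f) z + dy (dy f) z

/-- The Wirtinger derivative with respect to `z`. -/
noncomputable def dz (f : ℂ → ℂ) (z : ℂ) : ℂ := (dx f z - Complex.I * dy f z) / 2

/-- The Wirtinger derivative with respect to the conjugate of `z`. -/
noncomputable def dzb (f : ℂ → ℂ) (z : ℂ) : ℂ := (dx f z + Complex.I * dy f z) / 2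

/-- The gradient of a real function, as a complex number. -/
noncomputable def gr (f : ℂ → ℝ) (z : ℂ) : ℂ := ⟨dx f z, dy f z⟩

end Calculus

section Potential

/-- The double well potential (blocks B and C), wells at `-π` and `π`. -/
noncomputable def Wt (v : ℝ) : ℝ := if |v| ≤ π then 1 + Real.cos v else (|v| - π) ^ 2 / 2

/-- The derivative of `Wt`. -/
noncomputable def Wt' (v : ℝ) : ℝ := if |v| ≤ π then -Real.sin v else if 0 < v then v - π else v + π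

end Potential

section Abstract

variable {Ω : Type*} [MeasurableSpace Ω]

/-- Pairs (function, gradient). -/
abbrev JetSp (A : Measure Ω) := WithLp 2 (Lp ℝ 2 A × Lp ℂ 2 A)

/-- `U` is represented by the functions `f` and `g`. -/
def IsJet {A : Measure Ω} (U : JetSp A) (f : Ω → ℝ) (g : Ω → ℂ) : Prop := U.fst =ᵐ[A] f ∧ U.snd =ᵐ[A] g

/-- An energy space. -/
structure IsESpace {A : Measure Ω} (H : Submodule ℝ (JetSp A)) : Prop where
  closed : IsClosed (H : Set (JetSp A))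
  one_mem : ∀ U : JetSp A, IsJet U (fun _ => 1) (fun _ => 0) → U ∈ H
  inj : ∀ U ∈ H, U.fst = 0 → U = 0
  rellich : ∀ C : ℝ, IsCompact (closure {u : Lp ℝ 2 A | ∃ U ∈ H, ‖U‖ ≤ C ∧ U.fst = u})

/-- The space is stable under composition with functions of class `C^1` with bounded derivative. -/
def CompStable {A : Measure Ω} (H : Submodule ℝ (JetSp A)) : Prop :=
  ∀ k : ℝ → ℝ, ContDiff ℝ 1 k → (∃ C, ∀ s, |deriv k s| ≤ C) → ∀ U ∈ H, ∃ V ∈ H,
    IsJet V (fun x => k (U.fst x)) (fun x => ((deriv k (U.fst x) : ℝ) : ℂ) * U.snd x)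

/-- A measurable weight, bounded between positive constants. -/
def IsWeight (w : Ω → ℝ) : Prop := Measurable w ∧ ∃ c C : ℝ, 0 < c ∧ ∀ x, c ≤ w x ∧ w x ≤ C

variable {A : Measure Ω}

/-- The energy. -/
noncomputable def en (ε : ℝ) (w : Ω → ℝ) (U : JetSp A) : ℝ :=
  ε / 2 * ‖U.snd‖ ^ 2 + 1 / ε * ∫ x, w x * Wt (U.fst x) ∂A

/-- Weak solutions. -/
def IsWeak (H : Submodule ℝ (JetSp A)) (ε : ℝ) (w : Ω → ℝ) (U : JetSp A) : Prop :=
  U ∈ H ∧ ∀ Z ∈ H, ε ^ 2 * inner ℝ U.snd Z.snd + ∫ x, w x * Wt' (U.fst x) * Z.fst x ∂A = 0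

/-- The sublevel sets of the energy, as sets of square integrable functions. -/
def sub (H : Submodule ℝ (JetSp A)) (ε : ℝ) (w : Ω → ℝ) (c : ℝ) : Set (Lp ℝ 2 A) :=
  {u | ∃ U ∈ H, U.fst = u ∧ en ε w U ≤ c}

/-- The genus of the symmetric set `A` is at most `k`. -/
def GenusLE {X : Type*} [NormedAddCommGroup X] (A : Set X) (k : ℕ) : Prop :=
  ∃ f : X → EuclideanSpace ℝ (Fin k), ContinuousOn f A ∧ (∀ x ∈ A, f (-x) = -f x) ∧ ∀ x ∈ A, f x ≠ 0

/-- The min-max values. -/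
noncomputable def width (H : Submodule ℝ (JetSp A)) (ε : ℝ) (w : Ω → ℝ) (p : ℕ) : ℝ :=
  sInf {c : ℝ | ¬ GenusLE (sub H ε w c) p}

end Abstract

section Square

/-- The unit square. -/
def Qs : Set ℂ := {z | 0 ≤ z.re ∧ z.re ≤ 1 ∧ 0 ≤ z.im ∧ z.im ≤ 1}

/-- Lebesgue measure on the unit square. -/
noncomputable def mQ : Measure ℂ := volume.restrict Qs

/-- The Sobolev space of the unit square. -/
noncomputable def HQ : Submodule ℝ (JetSp mQ) :=
  (Submodule.span ℝ {U | ∃ v : ℂ → ℝ, ContDiff ℝ 1 v ∧ IsJet U v (gr v)}).topologicalClosure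

end Square

section Surface

open Metric

/-- A closed surface with finitely many charts in which the metric is `ρ |dz|^2`, and its area measure. -/
structure CSurf (S : Type*) [TopologicalSpace S] [MeasurableSpace S] where
  /-- The number of charts. -/
  n : ℕ
  /-- The charts. -/
  φ : Fin n → OpenPartialHomeomorph S ℂ
  /-- The metric. -/
  ρ : Fin n → ℂ → ℝ
  /-- The area measure. -/
  area : Measure S
  target : ∀ i, (φ i).target = ball 0 3
  cover : ∀ x, ∃ i, x ∈ (φ i).source ∧ φ i x ∈ ball (0 : ℂ) 1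
  ρ_smooth : ∀ i, ContDiffOn ℝ ∞ (ρ i) (ball 0 3)
  ρ_pos : ∀ i, ∀ z ∈ ball (0 : ℂ) 3, 0 < ρ i z
  trans_smooth : ∀ i j, ContDiffOn ℝ ∞ (φ j ∘ (φ i).symm) ((φ i).symm.trans (φ j)).source
  trans_conf : ∀ i j, ∀ x ∈ (φ i).source, x ∈ (φ j).source → ∀ v : ℂ,
    ρ j (φ j x) * ‖fderiv ℝ (φ j ∘ (φ i).symm) (φ i x) v‖ ^ 2 = ρ i (φ i x) * ‖v‖ ^ 2
  area_eq : ∀ i, ∀ B : Set S, MeasurableSet B → B ⊆ (φ i).source →
    area B = ∫⁻ z in φ i '' B, ENNReal.ofReal (ρ i z)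

variable {S : Type*} [TopologicalSpace S] [MeasurableSpace S]

namespace CSurf

variable (C : CSurf S)

open Classical in
/-- The first chart with `x` in the preimage of the unit disc. -/
noncomputable def idx (x : S) : Fin C.n :=
  (Finset.univ.filter fun i => x ∈ (C.φ i).source ∧ C.φ i x ∈ ball (0 : ℂ) 1).min'
    (let ⟨i, hi⟩ := C.cover x; ⟨i, Finset.mem_filter.2 ⟨Finset.mem_univ i, hi⟩⟩)

/-- Functions of class `C^1`. -/
def IsC1 (v : S → ℝ) : Prop := ∀ i, ContDiffOn ℝ 1 (v ∘ (C.φ i).symm) (ball 0 3)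

/-- Smooth functions. -/
def IsSmooth (v : S → ℝ) : Prop := ∀ i, ContDiffOn ℝ ∞ (v ∘ (C.φ i).symm) (ball 0 3)

/-- The gradient of a function in the conformal frame of the first chart. -/
noncomputable def grad (v : S → ℝ) (x : S) : ℂ :=
  gr (v ∘ (C.φ (C.idx x)).symm) (C.φ (C.idx x) x) / (Real.sqrt (C.ρ (C.idx x) (C.φ (C.idx x) x)) : ℂ)

/-- The Sobolev space of the surface. -/
noncomputable def HS : Submodule ℝ (JetSp C.area) :=
  (Submodule.span ℝ {U | ∃ v : S → ℝ, C.IsC1 v ∧ IsJet U v (C.grad v)}).topologicalClosure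

/-- The metric `w ρ` in the chart `i`. -/
noncomputable def a (w : S → ℝ) (i : Fin C.n) (z : ℂ) : ℝ := C.ρ i z * w ((C.φ i).symm z)

/-- Smooth solutions `u` of `ε^2 Δ u = w sin u` with values in `[0, 2π]`. -/
structure IsSol (ε : ℝ) (w : S → ℝ) (u : S → ℝ) : Prop where
  smooth : C.IsSmooth u
  eq : ∀ i, ∀ z ∈ ball (0 : ℂ) 3,
    ε ^ 2 * lap (u ∘ (C.φ i).symm) z = C.a w i z * Real.sin (u ((C.φ i).symm z))
  nonneg : ∀ x, 0 ≤ u x
  le : ∀ x, u x ≤ 2 * π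

/-- The energy of a smooth function `u` with values in `[0, 2π]`. -/
noncomputable def energy (ε : ℝ) (w : S → ℝ) (u : S → ℝ) : ℝ :=
  ∫ x, (ε / 2 * ‖C.grad u x‖ ^ 2 + 1 / ε * (w x * (1 - Real.cos (u x)))) ∂C.area

/-- Unit speed geodesics of the metric `w ρ |dz|^2`. -/
def IsGeo (w : S → ℝ) (γ : ℝ → S) : Prop :=
  Continuous γ ∧ ∀ i t, γ t ∈ (C.φ i).source →
    ContDiffAt ℝ 2 (C.φ i ∘ γ) t ∧
    C.a w i (C.φ i (γ t)) * ‖deriv (C.φ i ∘ γ) t‖ ^ 2 = 1 ∧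
    deriv (deriv (C.φ i ∘ γ)) t =
      -dz (fun z => (Real.log (C.a w i z) : ℂ)) (C.φ i (γ t)) * deriv (C.φ i ∘ γ) t ^ 2

/-- Closed geodesics with period `T`. -/
def IsClosedGeo (w : S → ℝ) (γ : ℝ → S) (T : ℝ) : Prop := C.IsGeo w γ ∧ 0 < T ∧ ∀ t, γ (t + T) = γ t

end CSurf

end Surface

section Local

open Metric

/-- A smooth solution of `ε^2 Δ u = a sin u` with values in `[0, 2π]` on the open set `D`. -/
structure LSol (D : Set ℂ) (ε : ℝ) (a u : ℂ → ℝ) : Prop where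
  smooth : ContDiffOn ℝ ∞ u D
  eq : ∀ z ∈ D, ε ^ 2 * lap u z = a z * Real.sin (u z)
  nonneg : ∀ z ∈ D, 0 ≤ u z
  le : ∀ z ∈ D, u z ≤ 2 * π

/-- The energy density. -/
noncomputable def ed (ε : ℝ) (a u : ℂ → ℝ) (z : ℂ) : ℝ :=
  ε / 2 * ‖gr u z‖ ^ 2 + 1 / ε * (a z * (1 - Real.cos (u z)))

/-- The discrepancy. -/
noncomputable def disc (ε : ℝ) (a u : ℂ → ℝ) (z : ℂ) : ℝ :=
  ε / 2 * ‖gr u z‖ ^ 2 - 1 / ε * (a z * (1 - Real.cos (u z)))

/-- A sequence of solutions on the disc of radius `3`, with uniform bounds on the disc of radius `2`. -/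
structure LocSeq (a : ℂ → ℝ) (aj : ℕ → ℂ → ℝ) (ε : ℕ → ℝ) (u : ℕ → ℂ → ℝ) : Prop where
  a_smooth : ContDiffOn ℝ ∞ a (ball 0 3)
  a_pos : ∀ z ∈ ball (0 : ℂ) 3, 0 < a z
  aj_smooth : ∀ j, ContDiffOn ℝ ∞ (aj j) (ball 0 3)
  aj_pos : ∀ j, ∀ z ∈ ball (0 : ℂ) 3, 0 < aj j z
  aj_lim : ∀ k : ℕ, TendstoUniformlyOn (fun j => iteratedFDeriv ℝ k (aj j)) (iteratedFDeriv ℝ k a) atTop
    (closedBall 0 2)
  eps_pos : ∀ j, 0 < ε j
  eps_lim : Tendsto ε atTop (𝓝 0)
  sol : ∀ j, LSol (ball 0 3) (ε j) (aj j) (u j)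
  energy : ∃ E, ∀ j, ∫ z in ball (0 : ℂ) 2, ed (ε j) (aj j) (u j) z ≤ E
  modica : ∃ C, ∀ j, ∀ z ∈ ball (0 : ℂ) 2, disc (ε j) (aj j) (u j) z ≤ C
  bounds : ∀ k : ℕ, ∃ C, ∀ j, ∀ z ∈ ball (0 : ℂ) 2, ε j ^ k * ‖iteratedFDeriv ℝ k (u j) z‖ ≤ C

/-- The energy densities converge to the measure `μ` on the disc of radius `2`. -/
def EConv (aj : ℕ → ℂ → ℝ) (ε : ℕ → ℝ) (u : ℕ → ℂ → ℝ) (μ : Measure ℂ) : Prop :=
  ∀ f : ℂ → ℝ, Continuous f → HasCompactSupport f → tsupport f ⊆ ball 0 2 →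
    Tendsto (fun j => ∫ z, f z * ed (ε j) (aj j) (u j) z) atTop (𝓝 (∫ z, f z ∂μ))

/-- The quadratic differentials `4 ε (∂u)^2` converge to `m μ` on the disc of radius `2`. -/
def MConv (ε : ℕ → ℝ) (u : ℕ → ℂ → ℝ) (μ : Measure ℂ) (m : ℂ → ℂ) : Prop :=
  ∀ f : ℂ → ℝ, Continuous f → HasCompactSupport f → tsupport f ⊆ ball 0 2 →
    Tendsto (fun j => ∫ z, (f z : ℂ) * (4 * ε j * dz (fun z => (u j z : ℂ)) z ^ 2)) atTop
      (𝓝 (∫ z, (f z : ℂ) * m z ∂μ))

/-- The conservation law of order `n` (odd) in the disc of radius `2`, for the limit measure. -/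
def Law (a : ℂ → ℝ) (μ : Measure ℂ) (m : ℂ → ℂ) (n : ℕ) : Prop :=
  ∀ f : ℂ → ℂ, ContDiff ℝ ∞ f → HasCompactSupport f → tsupport f ⊆ ball 0 2 →
    ∫ z, (m z ^ ((n + 1) / 2) * (a z : ℂ) ^ ((n - 1) / 2) * dzb f z -
        m z ^ ((n - 1) / 2) * (a z : ℂ) ^ ((n - 1) / 2) * dz f z -
        n * dz (fun z => (Real.log (a z) : ℂ)) z * m z ^ ((n - 1) / 2) * (a z : ℂ) ^ ((n - 1) / 2) * f z) ∂μ = 0

end Local

end Pool.Agent.Helper53.CL
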