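import Pool.Agent.Helper53.CL.Defs
import Pool.Agent.Helper82.GS.Scale

/-!
# Project CL (MP_6f990d_gt): the final statements of the blocks, as Props
-/

namespace Pool.Agent.Helper53.CL.Iface

open MeasureTheory Filter Topology Metric
open scoped ContDiff Real Manifold

universe u

section Local

/-! ### Block B, local elliptic estimates (unit scale) -/

/-- `ISOB1`: all derivatives of solutions at unit scale are bounded. -/
def Bnd1 : Prop := ∀ (M : ℕ → ℝ) (k : ℕ), ∃ K, ∀ a u : ℂ → ℝ, ContDiffOn ℝ ∞ a (ball 0 2) →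
  (∀ m, ∀ z ∈ ball (0 : ℂ) 2, ‖iteratedFDeriv ℝ m a z‖ ≤ M m) → LSol (ball 0 2) 1 a u →
  ‖iteratedFDeriv ℝ k u 0‖ ≤ K

/-- The derivatives are bounded by the square root of the energy at unit scale (the energy of the smaller disc
`ball 0 1`, where it is finite). -/
def Bnd2 : Prop := ∀ (M : ℕ → ℝ) (k : ℕ), 1 ≤ k → ∃ K, ∀ a u : ℂ → ℝ, ContDiffOn ℝ ∞ a (ball 0 2) →
  (∀ m, ∀ z ∈ ball (0 : ℂ) 2, ‖iteratedFDeriv ℝ m a z‖ ≤ M m) → (∀ z ∈ ball (0 : ℂ) 2, 0 < a z) →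
  LSol (ball 0 2) 1 a u →
  ‖iteratedFDeriv ℝ k u 0‖ ^ 2 ≤ K * ∫ z in ball (0 : ℂ) 1, (‖gr u z‖ ^ 2 + (1 - Real.cos (u z)))

/-! ### Block D, local asymptotics -/

/-- The discrepancy tends to zero. -/
def Disc0 : Prop := ∀ a aj ε u μ, LocSeq a aj ε u → EConv aj ε u μ → IsFiniteMeasure μ →
  ∀ f : ℂ → ℝ, Continuous f → HasCompactSupport f → tsupport f ⊆ ball 0 2 →
    Tendsto (fun j => ∫ z, f z * |disc (ε j) (aj j) (u j) z|) atTop (𝓝 0)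

/-- Density bounds for the limit measure. -/
def Dens : Prop := ∀ a aj ε u μ, LocSeq a aj ε u → EConv aj ε u μ → IsFiniteMeasure μ →
  ∃ c K r0 : ℝ, 0 < c ∧ 0 < r0 ∧
    (∀ x ∈ ball (0 : ℂ) (3 / 2), ∀ r ∈ Set.Ioo 0 r0, μ (ball x r) ≤ ENNReal.ofReal (K * r)) ∧
    (∀ x ∈ ball (0 : ℂ) (3 / 2), (∀ r > 0, 0 < μ (ball x r)) → ∀ r ∈ Set.Ioo 0 r0,
      ENNReal.ofReal (c * r) ≤ μ (ball x r))

/-- The limit of the quadratic differentials has modulus one. -/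
def MLim : Prop := ∀ a aj ε u μ, LocSeq a aj ε u → EConv aj ε u μ → IsFiniteMeasure μ →
  ∃ (σ : ℕ → ℕ) (m : ℂ → ℂ), StrictMono σ ∧ Measurable m ∧ (∀ z, ‖m z‖ = 1) ∧
    MConv (ε ∘ σ) (u ∘ σ) μ m

/-- The energy near the wells is small. -/
def Wells : Prop := ∀ a aj ε u, LocSeq a aj ε u → ∀ r < 2, ∃ K, ∀ δ ∈ Set.Ioo (0 : ℝ) 1, ∀ᶠ j in atTop,
  ∫ z in ball (0 : ℂ) r ∩ {z | 1 - Real.cos (u j z) < δ ^ 2}, ed (ε j) (aj j) (u j) z ≤ K * δ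

/-! ### Block E, conservation laws of the limit -/

/-- All conservation laws of odd order hold for the limit. -/
def Laws : Prop := ∀ a aj ε u μ m, LocSeq a aj ε u → EConv aj ε u μ → IsFiniteMeasure μ →
  MConv ε u μ m → Measurable m → (∀ z, ‖m z‖ = 1) → ∀ n : ℕ, Odd n → Law a μ m n

end Local

section Abstract

/-- The space `H` has symmetric compact sets of genus larger than `p` in its sublevel sets, for all `p`. -/
def Large {Ω : Type u} [MeasurableSpace Ω] {A : Measure Ω} (H : Submodule ℝ (JetSp A)) : Prop :=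
  ∀ ε > 0, ∀ w : Ω → ℝ, IsWeight w → ∀ p, ∃ c, ¬ GenusLE (sub H ε w c) p

/-- Block C4: the envelope lemma. -/
def Env : Prop := ∀ (Ω : Type u) [MeasurableSpace Ω] (A : Measure Ω) [IsFiniteMeasure A]
  (H : Submodule ℝ (JetSp A)), IsESpace H → Large H → ∀ (b : Ω → ℝ), Measurable b → (∃ K, ∀ x, |b x| ≤ K) →
  ∀ (ε : ℝ) (p : ℕ) (t₀ t₁ δ : ℝ), 0 < ε → t₀ ≤ t₁ →
  (∀ t ∈ Set.Icc t₀ t₁, ∀ U, IsWeak H ε (fun x => Real.exp (t * b x)) U →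
    en ε (fun x => Real.exp (t * b x)) U = width H ε (fun x => Real.exp (t * b x)) p →
    -δ ≤ 1 / ε * ∫ x, Real.exp (t * b x) * b x * Wt (U.fst x) ∂A) →
  width H ε (fun x => Real.exp (t₀ * b x)) p - δ * (t₁ - t₀) ≤ width H ε (fun x => Real.exp (t₁ * b x)) p

end Abstract

section Surface

variable (S : Type u) [TopologicalSpace S] [CompactSpace S] [T2Space S] [MeasurableSpace S] [BorelSpace S]

/-- Block B: the area is finite, `HS` is an energy space stable under composition. -/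
def Sob : Prop := ∀ C : CSurf S, IsFiniteMeasure C.area ∧ IsESpace C.HS ∧ CompStable C.HS

/-- Block B: regularity. -/
def Reg : Prop := ∀ C : CSurf S, ∀ w, C.IsSmooth w → (∀ x, 0 < w x) → ∀ ε > 0, ∀ U, IsWeak C.HS ε w U →
  ∃ u, C.IsSol ε w u ∧ IsJet U (fun x => u x - π) (C.grad u)

/-- Block B4, D1: the bounds of solutions, uniform in `t ∈ [0,1]`, `ε ∈ (0,1]`. -/
def Unif : Prop := ∀ C : CSurf S, ∀ b, C.IsSmooth b →
  (∀ k : ℕ, ∃ K, ∀ t ∈ Set.Icc (0 : ℝ) 1, ∀ ε ∈ Set.Ioc (0 : ℝ) 1, ∀ u,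
    C.IsSol ε (fun x => Real.exp (t * b x)) u → ∀ i, ∀ z ∈ ball (0 : ℂ) 2,
      ε ^ k * ‖iteratedFDeriv ℝ k (u ∘ (C.φ i).symm) z‖ ≤ K) ∧
  ∃ K, ∀ t ∈ Set.Icc (0 : ℝ) 1, ∀ ε ∈ Set.Ioc (0 : ℝ) 1, ∀ u,
    C.IsSol ε (fun x => Real.exp (t * b x)) u → ∀ i, ∀ z ∈ ball (0 : ℂ) 2,
      disc ε (C.a (fun x => Real.exp (t * b x)) i) (u ∘ (C.φ i).symm) z ≤ K

/-- Block C: the sublevel sets contain sets of arbitrarily large genus. -/
def LargeS : Prop := Nonempty S → ∀ C : CSurf S, Large C.HS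

/-- Block C5: the Weyl law. -/
def Weyl : Prop := Nonempty S → ∀ C : CSurf S, ∃ abar > 0, ∀ w, C.IsSmooth w → (∀ x, 0 < w x) → ∀ d > 0,
  ∃ p0 : ℕ, ∀ p ≥ p0,
    (∃ ε0 > 0, ∀ ε ∈ Set.Ioo 0 ε0, width C.HS ε w p ≤ (abar * √(∫ x, w x ∂C.area) + d) * √p) ∧
    ∀ ε1 > 0, ∃ ε ∈ Set.Ioo 0 ε1, (abar * √(∫ x, w x ∂C.area) - d) * √p ≤ width C.HS ε w p

/-- Blocks D, E, F: if all closed geodesics of the limit metric have nonnegative `b` integral then the derivative of the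
energy of a sequence of solutions is asymptotically nonnegative. -/
def Def : Prop := ∀ C : CSurf S, ∀ b, C.IsSmooth b → ∀ (ε t : ℕ → ℝ) (τ : ℝ) (u : ℕ → S → ℝ),
  (∀ j, 0 < ε j) → Tendsto ε atTop (𝓝 0) → (∀ j, t j ∈ Set.Icc (0 : ℝ) 1) → Tendsto t atTop (𝓝 τ) →
  (∀ j, C.IsSol (ε j) (fun x => Real.exp (t j * b x)) (u j)) →
  (∃ E, ∀ j, C.energy (ε j) (fun x => Real.exp (t j * b x)) (u j) ≤ E) →
  (∀ γ T, C.IsClosedGeo (fun x => Real.exp (τ * b x)) γ T → 0 ≤ ∫ s in (0 : ℝ)..T, b (γ s)) →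
  ∀ η > 0, ∀ᶠ j in atTop,
    -η ≤ 1 / ε j * ∫ x, Real.exp (t j * b x) * b x * (1 - Real.cos (u j x)) ∂C.area

/-- The main theorem on conformal surfaces. -/
def IntC : Prop := ∀ C : CSurf S, ∀ b, C.IsSmooth b → ∫ x, b x ∂C.area < 0 → ∀ δ > 0,
  ∃ t ∈ Set.Ioo 0 δ, ∃ γ T, C.IsClosedGeo (fun x => Real.exp (t * b x)) γ T ∧ ∫ s in (0 : ℝ)..T, b (γ s) < 0

end Surface

section Metric

open Pool.Agent.Helper82.GS

variable (S : Type u) [TopologicalSpace S] [CompactSpace S] [T2Space S] [ChartedSpace P2 S]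
  [IsManifold (modelWithCornersSelf ℝ P2) ∞ S] [MeasurableSpace S] [BorelSpace S]

/-- Block A: isothermal charts. -/
def Iso : Prop := ∀ g : RMetric S, ∃ C : CSurf S, IsArea g C.area ∧
  (∀ b : S → ℝ, (∀ e ∈ atlas P2 S, ContDiffOn ℝ ∞ (b ∘ e.symm) e.target) → C.IsSmooth b) ∧
  ∀ (w : S → ℝ) (hw : ∀ e ∈ atlas P2 S, ContDiffOn ℝ ∞ (w ∘ e.symm) e.target) (hpos : ∀ x, 0 < w x)
    (γ : ℝ → S), C.IsGeo w γ → IsGeodesic (g.scale w hw hpos) γ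

/-- The main analytic theorem, input of Block G. -/
def Int : Prop := ∀ (g : RMetric S) (μ : Measure S), IsArea g μ →
  ∀ (b : S → ℝ) (_ : ∀ e ∈ atlas P2 S, ContDiffOn ℝ ∞ (b ∘ e.symm) e.target), ∫ x, b x ∂μ < 0 → ∀ δ > 0,
  ∃ t ∈ Set.Ioo 0 δ, ∃ (hw : ∀ e ∈ atlas P2 S, ContDiffOn ℝ ∞ ((fun x => Real.exp (t * b x)) ∘ e.symm) e.target)
    (γ : ℝ → S) (T : ℝ),
    IsClosedGeodesic (g.scale (fun x => Real.exp (t * b x)) hw (fun _ => Real.exp_pos _)) γ T ∧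
      ∫ s in (0 : ℝ)..T, b (γ s) < 0

end Metric

end Pool.Agent.Helper53.CL.Iface
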