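import Pool.Agent.Helper53.CL.Final
import Pool.Agent.Helper57.BU.Final
import Pool.Agent.Helper57.SOB.QFinal
import Pool.Agent.Helper61.CLB.Local
import Pool.Agent.Helper82.CLK.All
import Pool.Agent.Helper85.CL.Reg
import Pool.Agent.Helper85.CL.Unif

/-!
# Project CL: the `C^∞` closing lemma for geodesic flows on closed surfaces
-/

namespace Pool.Agent.Helper53.CL

open MeasureTheory Filter Topology Metric Iface Pool.Agent.Helper82.GS
open scoped ContDiff Real Manifold

universe u

/-- The Borsuk-Ulam theorem. -/
theorem buprop : K.BUprop := fun _ => BU.not_genusLE_sphere le_rfl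

/-- Block C on the surface. -/
theorem weylS (S : Type u) [TopologicalSpace S] [CompactSpace S] [T2Space S] [MeasurableSpace S]
    [BorelSpace S] : Weyl S := fun h C =>
  haveI := h
  Pool.Agent.Helper82.CLK.weyl buprop SOB.isESpace_HQ SOB.compStable_HQ C

theorem largeS (S : Type u) [TopologicalSpace S] [CompactSpace S] [T2Space S] [MeasurableSpace S]
    [BorelSpace S] : LargeS S := fun _ C =>
  Pool.Agent.Helper82.CLK.large_HS buprop SOB.isESpace_HQ SOB.compStable_HQ C

/-- **The `C^∞` closing lemma for geodesic flows on closed surfaces.** -/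
theorem closing (S : Type u) [TopologicalSpace S] [CompactSpace S] [T2Space S] [ChartedSpace P2 S]
    [IsManifold (modelWithCornersSelf ℝ P2) ∞ S] :
    ∀ᶠ g in residual (Stmt.RMetric P2 S), Stmt.ClosedGeodesicsDense g := by
  let _ : MeasurableSpace S := borel S
  have _ : BorelSpace S := ⟨rfl⟩
  exact closing_of S Pool.Agent.Helper61.CLB.bnd2_holds
    (Pool.Agent.Helper85.CL.reg (SOB.sob S) Pool.Agent.Helper61.CLB.locReg_holds)
    (Pool.Agent.Helper85.CL.unif S Pool.Agent.Helper61.CLB.bnd1_holds) (weylS S) (largeS S)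

end Pool.Agent.Helper53.CL
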