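import Pool.Agent.Helper53.CL.H.H07
import Pool.Agent.Helper53.CL.C.C10
import Pool.Agent.Helper53.CL.Z.Z1
import Pool.Agent.Helper53.CL.Z.Z2
import Pool.Agent.Helper57.ISO.Final
import Pool.Agent.Helper57.SOB.Final
import Pool.Agent.Helper59.CL.Main
import Pool.Agent.Helper85.CL.MLim
import Pool.Agent.Helper85.CL.Wells
import Pool.Agent.Helper74.CE.Final
import Pool.Agent.Helper82.PE.FinalR

/-!
# Project CL: the closing lemma for geodesic flows on closed surfaces, final assembly
-/

namespace Pool.Agent.Helper53.CL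

open MeasureTheory Filter Topology Metric Iface Pool.Agent.Helper82.GS
open scoped ContDiff Real Manifold

universe u

theorem disc0 : Iface.Disc0 := Pool.Agent.Helper85.CL.disc0 Pool.Agent.Helper59.CL.Main.monoD Pool.Agent.Helper59.CL.Main.densR

theorem mLim : Iface.MLim := Pool.Agent.Helper85.CL.mLim Pool.Agent.Helper59.CL.Main.monoD Pool.Agent.Helper59.CL.Main.densR

/-- The closing lemma from the remaining blocks. -/
theorem closing_of (S : Type u) [TopologicalSpace S] [CompactSpace S] [T2Space S] [ChartedSpace P2 S]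
    [IsManifold (modelWithCornersSelf ℝ P2) ∞ S] [MeasurableSpace S] [BorelSpace S]
    (hBnd2 : Bnd2) (hReg : Reg S) (hUnif : Unif S) (hWeyl : Weyl S) (hLarge : LargeS S) :
    ∀ᶠ g in residual (Stmt.RMetric P2 S), Stmt.ClosedGeodesicsDense g :=
  Pool.Agent.Helper82.PE.closing_of_int S (int S (ISO.iso S)
    (intC S (SOB.sob S) hReg hLarge C.env hWeyl
      (H.def_of S disc0 Pool.Agent.Helper59.CL.Main.dens mLim
        (Pool.Agent.Helper74.CE.laws hBnd2 disc0 Pool.Agent.Helper85.CL.wells) hUnif)))

end Pool.Agent.Helper53.CL
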